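import Pool.Agent.U81.RC.Rat
import Pool.Agent.U81.AT.Law
import Pool.Agent.K4H55.BD.Pl

/-!
Powers of the characters.
-/

set_option autoImplicit false

namespace Pool.Agent.U81.RC

open NumberField IsDedekindDomain
open Pool.Agent.K4H55.BD (low mem_low Spl tv tv_ne eq_or_tv mem_tv_nat pl mem_pl uniq_over)
open Pool.Agent.K4H55.BI (IQ gen)
open Pool.Agent.U81.AT

section pl

variable {K : Type} [Field K] [NumberField K] {σ : K →+* ℂ} {δ : K}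

/-- the product of the norms of the places above split primes -/
lemma prod_pl (h : IQ K σ δ) {T : Finset ℕ} (hT : ∀ q ∈ T, Spl h q) :
    ∏ v ∈ pl K T, Ideal.absNorm v.asIdeal = (∏ q ∈ T, q) ^ 2 := by
  classical
  induction T using Finset.induction_on with
  | empty =>
    unfold pl
    simp
  | insert q T hq ih =>
    have hq' := hT q (Finset.mem_insert_self q T)
    have hT' : ∀ q ∈ T, Spl h q := fun q hq => hT q (Finset.mem_insert_of_mem hq)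
    have hTp : ∀ q ∈ T, q.Prime := fun q hq => (hT' q hq).pr
    have hsp : ∀ q' ∈ ({q} : Finset ℕ), q'.Prime := fun q' h' => by
      rw [Finset.mem_singleton.1 h']; exact hq'.pr
    have h1 : pl K (insert q T) = pl K {q} ∪ pl K T := by
      unfold pl
      rw [Finset.biUnion_insert, Finset.singleton_biUnion]
    have h2 : Disjoint (pl K {q}) (pl K T) := by
      rw [Finset.disjoint_left]
      intro v hv hv'
      obtain ⟨q1, hq1, hv1⟩ := (mem_pl hsp).1 hv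
      obtain ⟨q2, hq2, hv2⟩ := (mem_pl hTp).1 hv'
      rw [Finset.mem_singleton.1 hq1] at hv1
      rw [← uniq_over hq'.pr (hTp q2 hq2) hv1 hv2] at hq2
      exact hq hq2
    obtain ⟨v, hv⟩ := Pool.Agent.K4H55.BD.exists_over h hq'.pr
    have h3 : pl K {q} = {v, tv h v} := by
      ext w
      rw [mem_pl hsp, Finset.mem_insert, Finset.mem_singleton]
      constructor
      · rintro ⟨q', hq', hw⟩
        rw [Finset.mem_singleton.1 hq'] at hw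
        exact eq_or_tv h (hT q (Finset.mem_insert_self q T)) hv hw
      · rintro (rfl | rfl)
        · exact ⟨q, Finset.mem_singleton_self q, hv⟩
        · exact ⟨q, Finset.mem_singleton_self q, mem_tv_nat h hv⟩
    rw [h1, Finset.prod_union h2, ih hT', h3, Finset.prod_pair (tv_ne h hq' hv).symm,
      hq'.deg v hv, hq'.deg _ (mem_tv_nat h hv), Finset.prod_insert hq]
    ring

end pl

section pow

lemma pow_odd_one {G : Type*} [Group G] {g : G} {N t : ℕ} (h : g ^ 2 ^ N = 1)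
    (ht : t.Coprime 2) (h1 : g ^ t = 1) : g = 1 := by
  have h2 : orderOf g ∣ 2 ^ N := orderOf_dvd_of_pow_eq_one h
  have h3 : orderOf g ∣ t := orderOf_dvd_of_pow_eq_one h1
  have h4 : orderOf g ∣ 1 := by
    have h5 : (2 ^ N).Coprime t := (Nat.Coprime.pow_right N ht).symm
    rw [← h5.gcd_eq_one]
    exact Nat.dvd_gcd h2 h3
  exact orderOf_eq_one_iff.1 (Nat.dvd_one.1 h4)

lemma one_pw {q t : ℕ} : (1 : (ZMod q)ˣ →* ℂˣ) ^ t = 1 :=
  MonoidHom.ext fun a => by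
    show (1 : ℂˣ) ^ t = 1
    exact one_pow t

lemma inv_iff {q : ℕ} {ψ : (ZMod q)ˣ →* ℂˣ} : ψ⁻¹ = 1 ↔ ψ = 1 := by
  constructor
  · intro h
    refine MonoidHom.ext fun a => ?_
    have h1 : (ψ a)⁻¹ = 1 := DFunLike.congr_fun h a
    exact inv_eq_one.1 h1
  · rintro rfl
    refine MonoidHom.ext fun a => ?_
    show (1 : ℂˣ)⁻¹ = 1
    exact inv_one

lemma vl_odd {q N t k : ℕ} {ψ : (ZMod q)ˣ →* ℂˣ} (h : ψ ^ 2 ^ N = 1) (ht : t.Coprime 2)
    (h0 : t ≠ 0) : vl (ψ ^ t) k = vl ψ k ^ t := by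
  by_cases h1 : ψ = 1
  · rw [h1, one_pw, vl_one_left, one_pow]
  · have h2 : ψ ^ t ≠ 1 := fun h2 => h1 (pow_odd_one h ht h2)
    by_cases hk : IsUnit (k : ZMod q)
    · obtain ⟨a, ha⟩ := hk
      rw [vl_unit ha, vl_unit ha, MonoidHom.pow_apply, Units.val_pow_eq_pow_val]
    · rw [vl_zero.2 ⟨h2, hk⟩, vl_zero.2 ⟨h1, hk⟩, zero_pow h0]

variable {K F M : Type} [Field K] [NumberField K] [Field F] [NumberField F] [Field M]
  [NumberField M] [Algebra K F] [Algebra F M] [Algebra K M] [IsScalarTower K F M]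
  [IsGalois K F] [IsGalois K M] {S : Finset ℕ} {ζ : ℕ → 𝓞 M} {σ : K →+* ℂ} {δ : K}

lemma ps_pw (h : Dat K S ζ) (χ : (F ≃ₐ[K] F) →* ℂˣ) (t : ℕ) (q : S) :
    ps h (χ ^ t) q = ps h χ q ^ t := by
  apply MonoidHom.ext
  intro a
  rfl

lemma ps_two (h : Dat K S ζ) {N : ℕ} (hN : ∀ τ : F ≃ₐ[K] F, τ ^ 2 ^ N = 1)
    (χ : (F ≃ₐ[K] F) →* ℂˣ) (q : S) : ps h χ q ^ 2 ^ N = 1 := by
  apply MonoidHom.ext
  intro a
  exact ps_pow h χ hN q a

lemma fn_odd (h : Dat K S ζ) {N t : ℕ} (hN : ∀ τ : F ≃ₐ[K] F, τ ^ 2 ^ N = 1)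
    (ht : t.Coprime 2) (h0 : t ≠ 0) (χ : (F ≃ₐ[K] F) →* ℂˣ) (x : 𝓞 K) :
    fn h (χ ^ t) x = fn h χ x ^ t := by
  unfold fn
  rw [← Finset.prod_pow]
  refine Finset.prod_congr rfl fun q _ => ?_
  rw [ps_pw, vl_odd (ps_two h hN χ q) ht h0]

lemma TT_eq (h : Dat K S ζ) {χ χ' : (F ≃ₐ[K] F) →* ℂˣ}
    (hχ : ∀ q, ps h χ q = 1 ↔ ps h χ' q = 1) : TT h χ = TT h χ' := by
  ext v
  rw [mem_TT, mem_TT]
  exact exists_congr fun q => and_congr_left fun _ => not_congr (hχ q)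

lemma TT_odd (h : Dat K S ζ) {N t : ℕ} (hN : ∀ τ : F ≃ₐ[K] F, τ ^ 2 ^ N = 1)
    (ht : t.Coprime 2) (χ : (F ≃ₐ[K] F) →* ℂˣ) : TT h (χ ^ t) = TT h χ := by
  refine TT_eq h fun q => ?_
  rw [ps_pw]
  exact ⟨fun h1 => pow_odd_one (ps_two h hN χ q) ht h1, fun h1 => by rw [h1, one_pw]⟩

lemma ps_inv (h : Dat K S ζ) (χ : (F ≃ₐ[K] F) →* ℂˣ) (q : S) :
    ps h χ⁻¹ q = (ps h χ q)⁻¹ := by
  apply MonoidHom.ext
  intro a
  rfl

lemma TT_inv (h : Dat K S ζ) (χ : (F ≃ₐ[K] F) →* ℂˣ) : TT h χ⁻¹ = TT h χ := by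
  refine TT_eq h fun q => ?_
  rw [ps_inv, inv_iff]

lemma vl_inv {q N k : ℕ} {ψ : (ZMod q)ˣ →* ℂˣ} (h : ψ ^ 2 ^ N = 1) :
    vl ψ⁻¹ k = starRingEnd ℂ (vl ψ k) := by
  by_cases h1 : ψ = 1
  · rw [inv_iff.2 h1, h1, vl_one_left, map_one]
  · have h2 : ψ⁻¹ ≠ 1 := fun h2 => h1 (inv_iff.1 h2)
    by_cases hk : IsUnit (k : ZMod q)
    · obtain ⟨a, ha⟩ := hk
      rw [vl_unit ha, vl_unit ha, MonoidHom.inv_apply, Units.val_inv_eq_inv_val]
      have h3 : ((ψ a : ℂˣ) : ℂ) ^ 2 ^ N = 1 := by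
        rw [← Units.val_pow_eq_pow_val, ← MonoidHom.pow_apply, h]
        simp
      have h4 : ‖((ψ a : ℂˣ) : ℂ)‖ = 1 := Complex.norm_eq_one_of_pow_eq_one h3 (by positivity)
      exact Complex.inv_eq_conj h4
    · rw [vl_zero.2 ⟨h2, hk⟩, vl_zero.2 ⟨h1, hk⟩, map_zero]

lemma fn_inv (h : Dat K S ζ) {N : ℕ} (hN : ∀ τ : F ≃ₐ[K] F, τ ^ 2 ^ N = 1)
    (χ : (F ≃ₐ[K] F) →* ℂˣ) (x : 𝓞 K) : fn h χ⁻¹ x = starRingEnd ℂ (fn h χ x) := by
  unfold fn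
  rw [map_prod]
  refine Finset.prod_congr rfl fun q _ => ?_
  rw [ps_inv, vl_inv (ps_two h hN χ q)]

/-- the norm of the conductor is a square -/
lemma TT_sq (h : Dat K S ζ) (hI : IQ K σ δ) (hS : ∀ q ∈ S, Spl hI q) (χ : (F ≃ₐ[K] F) →* ℂˣ) :
    ∃ m : ℕ, ∏ v ∈ TT h χ, Ideal.absNorm v.asIdeal = m ^ 2 := by
  classical
  set Q : Finset ℕ := (Finset.univ.filter fun q : S => ps h χ q ≠ 1).image Subtype.val with hQ
  have hQS : ∀ q ∈ Q, Spl hI q := by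
    intro q hq
    obtain ⟨x, -, rfl⟩ := Finset.mem_image.1 hq
    exact hS x x.2
  refine ⟨_, Eq.trans ?_ (prod_pl hI hQS)⟩
  congr 1
  ext v
  rw [mem_TT, mem_pl fun q hq => (hQS q hq).pr]
  constructor
  · rintro ⟨q, h1, h2⟩
    exact ⟨q, Finset.mem_image.2 ⟨q, Finset.mem_filter.2 ⟨Finset.mem_univ _, h1⟩, rfl⟩, h2⟩
  · rintro ⟨q, hq, h2⟩
    obtain ⟨x, hx, rfl⟩ := Finset.mem_image.1 hq
    exact ⟨x, (Finset.mem_filter.1 hx).2, h2⟩

end pow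

end Pool.Agent.U81.RC
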