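import Pool.Agent.U81.RC.Gal

/-!
The relative discriminants are odd.
-/

set_option autoImplicit false

namespace Pool.Agent.U81.RC

open NumberField IsDedekindDomain Module WithZero
open Pool.Agent.K4H55.BD (low mem_low)
open Pool.Agent.K4H55.BI (gen gen_span gen_dvd)

variable {K : Type} [Field K] [NumberField K] [IsPrincipalIdealRing (𝓞 K)]
  {F : Type} [Field F] [NumberField F] [Algebra K F]

/-- unramified places do not divide the different -/
lemma not_dvd_diff (u : HeightOneSpectrum (𝓞 F))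
    (hu : ∀ x : K, u.valuation F (algebraMap K F x) = (low (K := K) u).valuation K x) :
    ¬ u.asIdeal ∣ differentIdeal (𝓞 K) (𝓞 F) := by
  classical
  set v := low (K := K) u with hv
  have hmax : v.asIdeal.IsMaximal := v.isMaximal
  have hmaxu : u.asIdeal.IsMaximal := u.isMaximal
  have hfin : Finite (𝓞 K ⧸ v.asIdeal) := Ideal.finiteQuotientOfFreeOfNeBot _ v.ne_bot
  have hmem : algebraMap (𝓞 K) (𝓞 F) (gen v) ∈ u.asIdeal := by
    rw [← mem_low]
    exact gen_dvd.1 dvd_rfl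
  have hmap : v.asIdeal.map (algebraMap (𝓞 K) (𝓞 F)) =
      Ideal.span {algebraMap (𝓞 K) (𝓞 F) (gen v)} := by
    rw [← gen_span v, Ideal.map_span, Set.image_singleton]
  obtain ⟨Q, hQ⟩ : u.asIdeal ∣ v.asIdeal.map (algebraMap (𝓞 K) (𝓞 F)) := by
    rw [hmap, Ideal.dvd_span_singleton]
    exact hmem
  refine not_dvd_differentIdeal_of_isCoprime (𝓞 K) u.asIdeal Q ?_ hQ.symm
  rw [Ideal.isCoprime_iff_sup_eq]
  by_contra hcon
  have h1 : Q ≤ u.asIdeal := by
    have h2 : u.asIdeal ⊔ Q = u.asIdeal := (hmaxu.eq_of_le hcon le_sup_left).symm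
    rw [← h2]
    exact le_sup_right
  have h2 : algebraMap (𝓞 K) (𝓞 F) (gen v) ∈ u.asIdeal ^ 2 := by
    have h3 : Ideal.span {algebraMap (𝓞 K) (𝓞 F) (gen v)} ≤ u.asIdeal ^ 2 := by
      rw [← hmap, hQ, sq]
      exact Ideal.mul_mono_right h1
    exact h3 (Ideal.mem_span_singleton_self _)
  have h3 := hu (gen v : K)
  have h4 : v.valuation K (gen v : K) = exp (-1 : ℤ) := by
    have h5 := v.valuation_of_algebraMap (K := K) (gen v)
    have h6 : ((gen v : 𝓞 K) : K) = algebraMap (𝓞 K) K (gen v) := rfl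
    rw [h6, h5]
    have h7 := v.intValuation_singleton (r := gen v) (by
      intro h0
      apply v.ne_bot
      rw [← gen_span v, h0, Ideal.span_singleton_eq_bot]) (gen_span v).symm
    exact h7
  have h5 : u.valuation F (algebraMap K F (gen v : K)) ≤ exp (-(2 : ℕ) : ℤ) := by
    have h6 : algebraMap K F (gen v : K) =
        algebraMap (𝓞 F) F (algebraMap (𝓞 K) (𝓞 F) (gen v)) := rfl
    rw [h6, u.valuation_of_algebraMap]
    exact (u.intValuation_le_pow_iff_mem _ _).2 h2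
  rw [h3, h4, exp_le_exp] at h5
  norm_num at h5

/-- **Odd discriminants.** -/
theorem discr_odd (hu : ∀ u : HeightOneSpectrum (𝓞 F), (2 : 𝓞 F) ∈ u.asIdeal →
    ∀ x : K, u.valuation F (algebraMap K F x) = (low (K := K) u).valuation K x) :
    ∃ N : ℕ, Odd N ∧ (discr F).natAbs = N * (discr K).natAbs ^ finrank K F := by
  refine ⟨Ideal.absNorm (differentIdeal (𝓞 K) (𝓞 F)), ?_,
    natAbs_discr_eq_absNorm_differentIdeal_mul_natAbs_discr_pow K (𝓞 K) F (𝓞 F)⟩
  by_contra hcon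
  rw [Nat.not_odd_iff_even] at hcon
  obtain ⟨P, hP, h1, h2⟩ := Ideal.exists_isMaximal_dvd_of_dvd_absNorm' Nat.prime_two _ hcon.two_dvd
  have hne : P ≠ ⊥ := by
    rintro rfl
    have h3 : (2 : ℤ) ∈ (⊥ : Ideal (𝓞 F)).under ℤ := by
      rw [h1]
      exact Ideal.mem_span_singleton_self _
    have h4 : algebraMap ℤ (𝓞 F) 2 ∈ (⊥ : Ideal (𝓞 F)) := h3
    rw [Ideal.mem_bot, map_ofNat] at h4
    exact two_ne_zero h4
  set u : HeightOneSpectrum (𝓞 F) := ⟨P, hP.isPrime, hne⟩ with hud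
  have h2m : (2 : 𝓞 F) ∈ u.asIdeal := by
    have h3 : (2 : ℤ) ∈ P.under ℤ := by
      rw [h1]
      exact Ideal.mem_span_singleton_self _
    have h4 : algebraMap ℤ (𝓞 F) 2 ∈ P := h3
    rwa [map_ofNat] at h4
  exact not_dvd_diff u (hu u h2m) h2

lemma odd_of_sq {m : ℚ} {N : ℕ} (hN : Odd N) (h : m ^ 2 = N) : Odd m.num ∧ m.den = 1 := by
  have h1 : IsSquare (N : ℚ) := ⟨m, by rw [← h, sq]⟩
  have h2 : IsSquare N := Rat.isSquare_natCast_iff.1 h1
  obtain ⟨k, hk⟩ := h2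
  have hk' : (k : ℚ) ^ 2 = N := by
    rw [hk]
    push_cast
    ring
  have hko : Odd k := by
    rw [hk] at hN
    exact Nat.Odd.of_mul_left hN
  have h3 : m ^ 2 = (k : ℚ) ^ 2 := by rw [h, hk']
  rcases sq_eq_sq_iff_eq_or_eq_neg.1 h3 with h4 | h4
  · rw [h4]
    refine ⟨?_, Rat.den_natCast k⟩
    rw [Rat.num_natCast]
    exact_mod_cast hko
  · have h5 : m = ((-(k : ℤ) : ℤ) : ℚ) := by
      rw [h4]
      push_cast
      rfl
    rw [h5]
    refine ⟨?_, Rat.den_intCast _⟩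
    rw [Rat.num_intCast, odd_neg]
    exact_mod_cast hko

end Pool.Agent.U81.RC
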