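import Pool.Agent.U81.RC.Sq
import Pool.Agent.U81.AT.Fld

/-!
The fields in the towers are Galois over the rationals; their discriminants.
-/

set_option autoImplicit false

namespace Pool.Agent.U81.RC

open NumberField IsDedekindDomain Module
open Pool.Agent.K4H55.BI (IQ)
open Pool.Agent.U81.AT

variable {K : Type} [Field K] [NumberField K] {σ : K →+* ℂ} {δ : K}

/-- powers of roots of unity -/
lemma pow_actQ (s : AlgebraicClosure K →ₐ[ℚ] AlgebraicClosure K) {q : ℕ} (hq : q ≠ 0)
    {z : AlgebraicClosure K} (hz : z ^ q = 1) : ∃ m : ℕ, s z = z ^ m := by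
  have hz0 : z ≠ 0 := by
    rintro rfl
    rw [zero_pow hq] at hz
    exact zero_ne_one hz
  have h1 : IsPrimitiveRoot z (orderOf z) := IsPrimitiveRoot.orderOf z
  have h2 : orderOf z ≠ 0 := by
    intro h0
    have := orderOf_dvd_of_pow_eq_one hz
    rw [h0, zero_dvd_iff] at this
    exact hq this
  have : NeZero (orderOf z) := ⟨h2⟩
  obtain ⟨m, -, hm⟩ := h1.eq_pow_of_pow_eq_one (ξ := s z) (by
    rw [← map_pow, h1.pow_eq_one, map_one])
  exact ⟨m, hm.symm⟩

lemma comm_cmQ (h : IQ K σ δ) {S : Finset ℕ} (hS : ∀ q ∈ S, q.Prime)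
    (s : AlgebraicClosure K →ₐ[ℚ] AlgebraicClosure K)
    (t : AlgebraicClosure K →ₐ[K] AlgebraicClosure K) {z : AlgebraicClosure K}
    (hz : z ∈ cm K S) : s (t z) = t (s z) := by
  have hq2 : Algebra.IsQuadraticExtension ℚ K := ⟨h.deg⟩
  refine IntermediateField.adjoin_induction K (p := fun z _ => s (t z) = t (s z))
    (fun x hx => ?_) (fun x => ?_) ?_ ?_ ?_ hz
  · obtain ⟨q, hq, hx⟩ := hx
    obtain ⟨m, hm⟩ := pow_actQ s (hS q hq).ne_zero hx
    obtain ⟨l, hl⟩ := pow_act t (hS q hq).ne_zero hx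
    rw [hm, hl, map_pow, map_pow, hm, hl, ← pow_mul, ← pow_mul, mul_comm]
  · rw [t.commutes, ← s.restrictNormal_commutes K x, t.commutes]
  · intro x y _ _ hx hy
    rw [map_add, map_add, hx, hy, map_add, map_add]
  · intro x _ hx
    rw [map_inv₀, map_inv₀, hx, map_inv₀, map_inv₀]
  · intro x y _ _ hx hy
    rw [map_mul, map_mul, hx, hy, map_mul, map_mul]

/-- the fields are Galois over the rationals -/
lemma gal_Q (h : IQ K σ δ) {S : Finset ℕ} (hS : ∀ q ∈ S, q.Prime)
    (F : IntermediateField K (AlgebraicClosure K)) [NumberField F] (hF : F ≤ cm K S) :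
    IsGalois ℚ F := by
  have h1 := (IntermediateField.normal_iff_forall_map_le (K := F.restrictScalars ℚ)).2 <| by
    rintro s _ ⟨z, hz, rfl⟩
    have hgal : IsGalois K (AlgebraicClosure K) := inferInstance
    show s z ∈ F
    rw [← InfiniteGalois.fixedField_fixingSubgroup F]
    rintro ⟨t, ht⟩
    show t (s z) = s z
    have h1 := comm_cmQ h hS s (t : AlgebraicClosure K →ₐ[K] AlgebraicClosure K) (hF hz)
    have h2 : t z = z := ht ⟨z, hz⟩
    have h3 : s (t z) = t (s z) := h1
    rw [← h3, h2]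
  have h2 : Normal ℚ F := by
    have e : (DivisionRing.toRatAlgebra : Algebra ℚ F) =
        IntermediateField.algebra' (F.restrictScalars ℚ) := Subsingleton.elim _ _
    show @Normal ℚ F _ _ DivisionRing.toRatAlgebra
    rw [e]
    exact h1
  exact ⟨⟩

section inv

variable {F : Type} [Field F] [NumberField F] [Algebra K F] [IsGalois ℚ F]

/-- the complex conjugation -/
lemma exists_conj (h : IQ K σ δ) : ∃ c : F ≃ₐ[ℚ] F, c * c = 1 ∧
    ∃ x : K, c (algebraMap K F x) ≠ algebraMap K F x := by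
  let _ := σ.toAlgebra
  have : Algebra.IsAlgebraic K F := Algebra.IsAlgebraic.tower_top (K := ℚ) K
  let φ : F →ₐ[K] ℂ := IsAlgClosed.lift
  have hφ : Function.Injective φ := φ.toRingHom.injective
  obtain ⟨s, hs⟩ := ComplexEmbedding.exists_comp_symm_eq_of_comp_eq (k := ℚ) (φ : F →+* ℂ)
    ((starRingEnd ℂ).comp (φ : F →+* ℂ)) (RingHom.ext fun x => by simp)
  have h1 : ∀ y : F, φ (s.symm y) = starRingEnd ℂ (φ y) := fun y => DFunLike.congr_fun hs y
  refine ⟨s.symm, AlgEquiv.ext fun y => hφ ?_, ?_⟩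
  · show φ (s.symm (s.symm y)) = φ y
    rw [h1, h1, Complex.conj_conj]
  · obtain ⟨x, hx⟩ := h.cplx
    refine ⟨x, fun h2 => hx ?_⟩
    have h3 := h1 (algebraMap K F x)
    rw [h2] at h3
    have h4 : φ (algebraMap K F x) = σ x := φ.commutes x
    rw [h4] at h3
    exact h3.symm

/-- **The discriminants.** -/
theorem discr_even [IsGalois K F] (h : IQ K σ δ) (hd : Even (finrank K F)) :
    ∃ m : ℚ, (discr F : ℚ) = m ^ 2 := by
  classical
  refine discr_sq fun g => ?_
  -- the subgroup of `K`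
  let ι : (F ≃ₐ[K] F) →* (F ≃ₐ[ℚ] F) :=
    { toFun := fun s => s.restrictScalars ℚ
      map_one' := rfl
      map_mul' := fun s t => rfl }
  have hι : Function.Injective ι := fun s t hst => AlgEquiv.ext fun x => DFunLike.congr_fun hst x
  set R := ι.range with hR
  have hcard : Nat.card R = finrank K F := by
    rw [← IsGalois.card_aut_eq_finrank K F]
    exact (Nat.card_congr (MonoidHom.ofInjective hι).toEquiv).symm
  have hcardQ : Nat.card (F ≃ₐ[ℚ] F) = 2 * finrank K F := by
    rw [IsGalois.card_aut_eq_finrank, ← finrank_mul_finrank ℚ K F, h.deg]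
  have hpos : 0 < finrank K F := finrank_pos
  have hidx : R.index = 2 := by
    have h1 := R.card_mul_index
    rw [hcard, hcardQ, mul_comm 2] at h1
    exact Nat.eq_of_mul_eq_mul_left hpos h1
  have hRx : ∀ x ∈ R, Even (Subgroup.zpowers x).index := by
    intro x hx
    have h1 : Subgroup.zpowers x ≤ R := by
      rw [Subgroup.zpowers_le]
      exact hx
    rw [← Subgroup.relIndex_mul_index h1, hidx]
    exact even_two.mul_left _
  obtain ⟨c, hc, x, hx⟩ := exists_conj (F := F) h
  have hcR : c ∉ R := by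
    rintro ⟨s, hs⟩
    apply hx
    rw [← hs]
    exact s.commutes x
  have hc1 : c ≠ 1 := by
    rintro rfl
    exact hx rfl
  have hcE : Even (Subgroup.zpowers c).index := by
    have h1 : orderOf c = 2 := orderOf_eq_prime (by rw [pow_two, hc]) hc1
    have h2 := (Subgroup.zpowers c).card_mul_index
    rw [Nat.card_zpowers, h1, hcardQ] at h2
    have h3 : (Subgroup.zpowers c).index = finrank K F := by omega
    rw [h3]
    exact hd
  by_cases hg : g ∈ R
  · exact Subgroup.subset_closure (hRx g hg)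
  · have h1 : g * c ∈ R := (Subgroup.mul_mem_iff_of_index_two hidx).2
      (by simp only [hg, hcR])
    have h2 : g = (g * c) * c := by rw [mul_assoc, hc, mul_one]
    rw [h2]
    exact Subgroup.mul_mem _ (Subgroup.subset_closure (hRx _ h1)) (Subgroup.subset_closure hcE)

end inv

/-- **The roots of the discriminants.** -/
theorem discr_rat (h : IQ K σ δ) {S : Finset ℕ} (hS : ∀ q ∈ S, q.Prime)
    (F : IntermediateField K (AlgebraicClosure K)) [NumberField F] (hF : F ≤ cm K S) [IsGalois K F]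
    {j : ℕ} (hj : finrank K F = 2 ^ j) :
    ∃ m : ℚ, m ≠ 0 ∧ Real.sqrt |(discr F : ℝ)| = m * Real.sqrt |(discr K : ℝ)| ^ finrank K F := by
  have hg := gal_Q h hS F hF
  have hF0 : (discr F : ℝ) ≠ 0 := by exact_mod_cast discr_ne_zero F
  have hK0 : (discr K : ℝ) ≠ 0 := by exact_mod_cast discr_ne_zero K
  rcases Nat.eq_zero_or_pos j with rfl | hj0
  · -- degree one
    rw [pow_zero] at hj
    refine ⟨1, one_ne_zero, ?_⟩
    have h1 : Function.Bijective (algebraMap K F) :=
      ⟨(algebraMap K F).injective, (bijective_algebraMap_of_linearEquiv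
        (LinearEquiv.ofFinrankEq K F (by rw [finrank_self, hj]) : K ≃ₗ[K] F)).2⟩
    have h2 : discr K = discr F := discr_eq_discr_of_ringEquiv K (RingEquiv.ofBijective _ h1)
    rw [hj, pow_one, ← h2]
    push_cast
    ring
  · obtain ⟨i, rfl⟩ : ∃ i, j = i + 1 := ⟨j - 1, by omega⟩
    obtain ⟨m, hm⟩ := discr_even (F := F) h (by
      rw [hj, pow_succ]
      exact even_two.mul_left _)
    have hm0 : m ≠ 0 := by
      rintro rfl
      have h1 : (discr F : ℚ) = 0 := by rw [hm]; norm_num
      exact discr_ne_zero F (by exact_mod_cast h1)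
    have hmR : (discr F : ℝ) = (m : ℝ) ^ 2 := by exact_mod_cast hm
    have hK : (|(discr K : ℚ)|) ≠ 0 := abs_ne_zero.2 (by exact_mod_cast discr_ne_zero K)
    refine ⟨|m| / |(discr K : ℚ)| ^ 2 ^ i, div_ne_zero (abs_ne_zero.2 hm0) (pow_ne_zero _ hK), ?_⟩
    have h2 : Real.sqrt |(discr K : ℝ)| ^ finrank K F = |(discr K : ℝ)| ^ 2 ^ i := by
      rw [hj, pow_succ, mul_comm, pow_mul, Real.sq_sqrt (abs_nonneg _)]
    rw [h2, hmR, abs_of_nonneg (sq_nonneg _), Real.sqrt_sq_eq_abs]
    push_cast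
    have h3 : |(discr K : ℝ)| ^ 2 ^ i ≠ 0 := pow_ne_zero _ (abs_ne_zero.2 hK0)
    field_simp

end Pool.Agent.U81.RC
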