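import Pool.Agent.U81.RC.Gal

/-!
The periods.
-/

set_option autoImplicit false

namespace Pool.Agent.U81.RC

open NumberField Module MeasureTheory
open scoped ComplexConjugate
open Pool.Agent.K4H55.BI (IQ)

/-- the area of the period parallelogram of `y² = x³ + A x + B` -/
noncomputable def area (A B : ℂ) : ℝ := 1 / 2 * ∫ x : ℂ, ‖x ^ 3 + A * x + B‖⁻¹

lemma area_conj (A B : ℂ) : area (conj A) (conj B) = area A B := by
  unfold area
  congr 1
  have h1 := (Complex.conjLIE.measurePreserving).integral_comp
    Complex.conjLIE.toHomeomorph.measurableEmbedding (fun x : ℂ => ‖x ^ 3 + conj A * x + conj B‖⁻¹)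
  rw [← h1]
  refine integral_congr_ae (Filter.Eventually.of_forall fun x => ?_)
  show ‖(conj x) ^ 3 + conj A * conj x + conj B‖⁻¹ = ‖x ^ 3 + A * x + B‖⁻¹
  rw [← map_pow, ← map_mul, ← map_add, ← map_add, RCLike.norm_conj]

variable {K : Type} [Field K] [NumberField K] {σ : K →+* ℂ} {δ : K}

lemma emb_eq (h : IQ K σ δ) (τ : K →+* ℂ) : τ = σ ∨ τ = (starRingEnd ℂ).comp σ := by
  classical
  have h1 : Fintype.card (K →+* ℂ) = 2 := by
    rw [Embeddings.card K ℂ, h.deg]
  have h2 : σ ≠ (starRingEnd ℂ).comp σ := by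
    intro h3
    obtain ⟨x, hx⟩ := h.cplx
    exact hx (DFunLike.congr_fun h3 x).symm
  have h3 : ({σ, (starRingEnd ℂ).comp σ} : Finset (K →+* ℂ)) = Finset.univ := by
    rw [← Finset.card_eq_iff_eq_univ, Finset.card_pair h2, h1]
  have h4 : τ ∈ ({σ, (starRingEnd ℂ).comp σ} : Finset (K →+* ℂ)) := by
    rw [h3]
    exact Finset.mem_univ _
  simpa using h4

variable {F : Type} [Field F] [NumberField F] [Algebra K F]

/-- the period -/
noncomputable def per (F : Type) [Field F] [NumberField F] [Algebra K F] (a b : 𝓞 K) : ℝ :=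
  Real.sqrt |(discr F : ℝ)| * ∏ w : InfinitePlace F,
    area (w.embedding (algebraMap K F a)) (w.embedding (algebraMap K F b))

lemma area_emb (h : IQ K σ δ) (φ : F →+* ℂ) (a b : 𝓞 K) :
    area (φ (algebraMap K F a)) (φ (algebraMap K F b)) = area (σ a) (σ b) := by
  have h1 : ∀ x : K, φ (algebraMap K F x) = (φ.comp (algebraMap K F)) x := fun x => rfl
  rw [h1, h1]
  rcases emb_eq h (φ.comp (algebraMap K F)) with h2 | h2
  · rw [h2]
  · rw [h2]
    exact area_conj _ _

lemma card_places (h : IQ K σ δ) : Fintype.card (InfinitePlace F) = finrank K F := by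
  classical
  have hc : ∀ w : InfinitePlace F, w.IsComplex := by
    intro w
    rw [← InfinitePlace.not_isReal_iff_isComplex, InfinitePlace.isReal_iff]
    intro hr
    obtain ⟨x, hx⟩ := h.cplx
    have h1 : ∀ y : F, conj (w.embedding y) = w.embedding y := fun y => DFunLike.congr_fun hr y
    rcases emb_eq h (w.embedding.comp (algebraMap K F)) with h2 | h2
    · apply hx
      have h3 : w.embedding (algebraMap K F x) = σ x := DFunLike.congr_fun h2 x
      rw [← h3]
      exact h1 _
    · apply hx
      have h3 : w.embedding (algebraMap K F x) = conj (σ x) := DFunLike.congr_fun h2 x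
      have h4 := h1 (algebraMap K F x)
      rw [h3, Complex.conj_conj] at h4
      exact h4.symm
  have h0 : InfinitePlace.nrRealPlaces F = 0 := by
    unfold InfinitePlace.nrRealPlaces
    rw [Fintype.card_eq_zero_iff]
    exact ⟨fun w => (InfinitePlace.not_isReal_iff_isComplex.2 (hc w.1)) w.2⟩
  have h1 := InfinitePlace.card_add_two_mul_card_eq_rank F
  rw [h0, zero_add, ← finrank_mul_finrank ℚ K F, h.deg] at h1
  have h2 : Fintype.card (InfinitePlace F) = InfinitePlace.nrComplexPlaces F := by
    rw [InfinitePlace.card_eq_nrRealPlaces_add_nrComplexPlaces, h0, zero_add]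
  rw [h2]
  omega

lemma per_eq (h : IQ K σ δ) (a b : 𝓞 K) :
    per F a b = Real.sqrt |(discr F : ℝ)| * area (σ a) (σ b) ^ finrank K F := by
  unfold per
  rw [Finset.prod_congr rfl fun w _ => area_emb h w.embedding a b, Finset.prod_const,
    Finset.card_univ, card_places h]

end Pool.Agent.U81.RC
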