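import Pool.Agent.U81.RC.Val
import Pool.Agent.U81.RC.Per
import Pool.Agent.U81.RC.Dis
import Pool.Agent.U81.AT.Main

/-!
The central values over the fields in the towers.
-/

set_option autoImplicit false

namespace Pool.Agent.U81.RC

open NumberField IsDedekindDomain Filter Topology
open Pool.Agent.K4H55.BD (low mem_low Spl QE Cub pv crv val_q spl_sq)
open Pool.Agent.K4H55.BI (IQ BF Fser gen)
open Pool.Agent.K4H55.BK (Vals)
open Pool.Agent.K4H55.CX (CH CF Law ord fin_up ab_unit ne_of_unit SelG A_ne facF above_prod efx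
  exists_lam notMem_of_cop)
open Pool.Agent.U81.BX (fct hasProd_fct)
open Pool.Agent.U81.AT

/-- entire functions which agree on a half plane -/
lemma entire_eq {G H : ℂ → ℂ} (hG : Differentiable ℂ G) (hH : Differentiable ℂ H)
    (h : ∀ s : ℂ, 2 < s.re → G s = H s) : G = H := by
  have h1 : AnalyticOnNhd ℂ G Set.univ := fun x _ => hG.analyticAt x
  have h2 : AnalyticOnNhd ℂ H Set.univ := fun x _ => hH.analyticAt x
  refine h1.eq_of_eventuallyEq h2 (z₀ := 3) ?_
  have h3 : IsOpen {s : ℂ | 2 < s.re} := isOpen_lt continuous_const Complex.continuous_re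
  filter_upwards [h3.mem_nhds (show (2 : ℝ) < (3 : ℂ).re by norm_num)] with s hs
  exact h s hs

/-- a rational number which is a unit at two -/
lemma odd_of_unit {r : ℚ} {x y : integralClosure ℤ ℂ} (hx : IsCoprime x 2) (hy : IsCoprime y 2)
    (h : (y : ℂ) * (r : ℂ) = (x : ℂ)) : Odd r.num ∧ Odd r.den := by
  obtain ⟨lam, hlam, h2⟩ := exists_lam
  have hd : (r.den : ℂ) ≠ 0 := by exact_mod_cast r.den_ne_zero
  have h1 : y * (r.num : integralClosure ℤ ℂ) = x * ((r.den : ℕ) : integralClosure ℤ ℂ) := by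
    apply Subtype.ext
    have h3 : (y : ℂ) * (r.num : ℂ) = (x : ℂ) * (r.den : ℂ) := by
      have h4 : (r : ℂ) = (r.num : ℂ) / (r.den : ℂ) := by
        exact_mod_cast congrArg (fun q : ℚ => (q : ℂ)) (Rat.num_div_den r).symm
      rw [← h, h4]
      field_simp
    have e1 : ((r.num : integralClosure ℤ ℂ) : ℂ) = (r.num : ℂ) := SubringClass.coe_intCast _ _
    have e2 : (((r.den : ℕ) : integralClosure ℤ ℂ) : ℂ) = (r.den : ℂ) := SubringClass.coe_natCast _ _
    show (y : ℂ) * ((r.num : integralClosure ℤ ℂ) : ℂ) =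
      (x : ℂ) * (((r.den : ℕ) : integralClosure ℤ ℂ) : ℂ)
    rw [e1, e2, h3]
  have hev : ∀ k : ℤ, Even k → (k : integralClosure ℤ ℂ) ∈ lam := by
    rintro k ⟨m, rfl⟩
    have e : ((m + m : ℤ) : integralClosure ℤ ℂ) = 2 * (m : integralClosure ℤ ℂ) := by
      push_cast
      ring
    rw [e]
    exact lam.mul_mem_right _ h2
  have hod : ∀ k : ℤ, Odd k → (k : integralClosure ℤ ℂ) ∉ lam := fun k hk =>
    notMem_of_cop (cop_int hk) hlam h2
  have hcop := r.reduced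
  by_cases hn : Odd r.num
  · refine ⟨hn, ?_⟩
    by_contra hden
    rw [Nat.not_odd_iff_even] at hden
    have h3 : x * ((r.den : ℕ) : integralClosure ℤ ℂ) ∈ lam := by
      refine lam.mul_mem_left _ ?_
      have := hev (r.den : ℤ) (by exact_mod_cast hden)
      exact_mod_cast this
    rw [← h1] at h3
    rcases hlam.mem_or_mem h3 with h4 | h4
    · exact notMem_of_cop hy hlam h2 h4
    · exact hod _ hn h4
  · exfalso
    rw [Int.not_odd_iff_even] at hn
    have h3 : y * (r.num : integralClosure ℤ ℂ) ∈ lam := lam.mul_mem_left _ (hev _ hn)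
    rw [h1] at h3
    rcases hlam.mem_or_mem h3 with h4 | h4
    · exact notMem_of_cop hx hlam h2 h4
    · have hden : Odd r.den := by
        by_contra hden
        rw [Nat.not_odd_iff_even] at hden
        have h5 : 2 ∣ r.num.natAbs := Int.natCast_dvd.1 (by exact_mod_cast hn.two_dvd)
        have h6 := Nat.dvd_gcd h5 hden.two_dvd
        rw [Nat.Coprime] at hcop
        rw [hcop] at h6
        omega
      refine hod (r.den : ℤ) (by exact_mod_cast hden) ?_
      exact_mod_cast h4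

variable {K : Type} [Field K] [NumberField K] [hP : IsPrincipalIdealRing (𝓞 K)] {σ : K →+* ℂ} {δ : K}
  {a b n : 𝓞 K} {c : Ideal (𝓞 K) → ℂ}

/-- **The fields in the towers.** -/
theorem towers (h : IQ K σ δ) (hΔ : 4 * a ^ 3 + 27 * b ^ 2 ≠ 0) (hf : BF σ δ n c)
    (hE : ∀ v : HeightOneSpectrum (𝓞 K), 2 * (4 * a ^ 3 + 27 * b ^ 2) ∉ v.asIdeal →
      n ∉ v.asIdeal ∧ c v.asIdeal = (Ideal.absNorm v.asIdeal : ℂ) - pv a b v)
    {z : ℂ} (hz : Tendsto (fun t => Fser σ δ c 0 t) (𝓝[>] 0) (𝓝 z)) {ω : ℂ}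
    (hω : ∀ l ∈ AddSubgroup.closure (Vals σ δ n c), ∃ j : ℤ, l = j * ω)
    (hω' : ω ∈ AddSubgroup.closure (Vals σ δ n c)) (hz0 : z ≠ 0)
    {S : Set ℕ} {k : ℕ → ℕ} (hS : ∀ q ∈ S, Spl h q ∧ ∀ v : HeightOneSpectrum (𝓞 K),
      (q : 𝓞 K) ∈ v.asIdeal → 2 * (4 * a ^ 3 + 27 * b ^ 2) ∉ v.asIdeal)
    (F : IntermediateField K (AlgebraicClosure K)) [NumberField F] (hF : F ≤ tow K S k) :
    (IsGalois K F ∧ (∀ a b : F ≃ₐ[K] F, a * b = b * a) ∧ (∃ j, Module.finrank K F = 2 ^ j) ∧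
      IsGalois ℚ F) ∧
    (∃ m : ℚ, Odd m.num ∧ m.den = 1 ∧
      Real.sqrt |(discr F : ℝ)| = m * Real.sqrt |(discr K : ℝ)| ^ Module.finrank K F) ∧
    ∃ (G : ℂ → ℂ) (r : ℚ), Differentiable ℂ G ∧
      (∀ s : ℂ, 2 < s.re → HasProd (fct (F := F) a b n c s) (G s)) ∧
      G 1 = r * ((2 * Real.pi / ‖σ δ‖) ^ 2 / (Nat.card (𝓞 K)ˣ : ℂ) * z) ^
        Module.finrank K F ∧
      ((∀ q ∈ S, ∀ v : HeightOneSpectrum (𝓞 K), (q : 𝓞 K) ∈ v.asIdeal →
          ∀ x : 𝓞 K, x ^ 3 + a * x + b ∉ v.asIdeal) →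
        (∀ y ∈ AddSubgroup.closure (Vals σ δ n c),
          z ≠ 2 * (Nat.card {u : 𝓞 K // u ^ 4 = 1} : ℂ) * y) → Odd r.num ∧ Odd r.den) := by
  classical
  have hfdF : FiniteDimensional K F := FiniteDimensional.right ℚ K F
  obtain ⟨S', hS', hF'⟩ := exists_finset F hF
  have hspl : ∀ q ∈ S', Spl h q := fun q hq => (hS q (hS' hq)).1
  have hun : ∀ q ∈ S', ∀ v : HeightOneSpectrum (𝓞 K), (q : 𝓞 K) ∈ v.asIdeal →
      v.valuation K (q : K) = WithZero.exp (-1 : ℤ) := fun q hq v hv => val_of h (hspl q hq) v hv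
  have hSp : ∀ q ∈ S', q.Prime := fun q hq => (hspl q hq).pr
  have hFM : F ≤ cm K S' := hF'.trans (tow_le S' k)
  have hfd : FiniteDimensional K (cm K S') := cm_fd hSp
  have hnf : NumberField (cm K S') := nf_of _
  have hgM : IsGalois K (cm K S') := cm_gal
  have hgF : IsGalois K F := gal_sub F hSp hFM
  let _ : Algebra F (cm K S') := (IntermediateField.inclusion hFM).toRingHom.toAlgebra
  have htow : IsScalarTower K F (cm K S') := IsScalarTower.of_algebraMap_eq fun x => rfl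
  obtain ⟨ζ, hζ⟩ := exists_cyc (K := K) hSp
  have hd : Dat K S' ζ := ⟨hζ, hun⟩
  have htriv : ∀ s : cm K S' ≃ₐ[K] cm K S',
      (∀ q (hq : q ∈ S'), ∃ b : ZMod q, (cy hζ hq s : ZMod q) = b ^ 2 ^ k q) →
      res K F (cm K S') s = 1 := by
    intro s hs
    apply AlgEquiv.ext
    intro x
    apply (algebraMap F (cm K S')).injective
    rw [res_spec]
    exact fix_tow hζ s hs (hF' x.2) (hFM x.2)
  have hcomm : ∀ a b : F ≃ₐ[K] F, a * b = b * a := by
    intro a b
    obtain ⟨s, rfl⟩ := res_surj (K := K) (F := F) (M := cm K S') a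
    obtain ⟨t, rfl⟩ := res_surj (K := K) (F := F) (M := cm K S') b
    rw [← map_mul, ← map_mul, hζ.comm]
  have hexp : ∀ τ : F ≃ₐ[K] F, τ ^ 2 ^ (S'.sup k) = 1 := by
    intro τ
    obtain ⟨s, rfl⟩ := res_surj (K := K) (F := F) (M := cm K S') τ
    rw [← map_pow]
    refine htriv _ fun q hq => ?_
    obtain ⟨m, hm⟩ : 2 ^ k q ∣ 2 ^ (S'.sup k) := pow_dvd_pow 2 (Finset.le_sup hq)
    refine ⟨((cy hζ hq s ^ m : (ZMod q)ˣ) : ZMod q), ?_⟩
    rw [map_pow, hm, mul_comm, pow_mul, Units.val_pow_eq_pow_val]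
  obtain ⟨j, hj⟩ : ∃ j, Module.finrank K F = 2 ^ j := by
    have h2 : Fact (Nat.Prime 2) := ⟨Nat.prime_two⟩
    have h1 : IsPGroup 2 (F ≃ₐ[K] F) := fun τ => ⟨_, hexp τ⟩
    obtain ⟨j, hj⟩ := IsPGroup.iff_card.1 h1
    refine ⟨j, ?_⟩
    rw [← hj, IsGalois.card_aut_eq_finrank]
  have hTT : ∀ (χ : (F ≃ₐ[K] F) →* ℂˣ), ∀ v ∈ TT hd χ,
      (2 : 𝓞 K) ∉ v.asIdeal ∧ n ∉ v.asIdeal := by
    intro χ v hv
    obtain ⟨q, -, hqv⟩ := mem_TT.1 hv
    have h1 := (hS q (hS' q.2)).2 v hqv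
    exact ⟨fun h2 => h1 (v.asIdeal.mul_mem_right _ h2), (hE v h1).1⟩
  have hcf := cf_fn (F := F) hd h hspl hexp
  have hlaw := law_fn (F := F) hd h hspl
  have hcard : Nat.card ((F ≃ₐ[K] F) →* ℂˣ) = Module.finrank K F := by
    have hall := Pool.Agent.U81.MQ.card_ann hcomm (⊥ : Subgroup (F ≃ₐ[K] F))
    rw [Subgroup.card_bot, mul_one] at hall
    rw [← IsGalois.card_aut_eq_finrank, ← hall]
    exact (Nat.card_congr (Equiv.subtypeUnivEquiv fun χ s hs => by
      rw [Subgroup.mem_bot] at hs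
      rw [hs, map_one])).symm
  obtain ⟨G, r, g1, g2, g3⟩ := val_rat (F := F) hd h hf hspl hexp hTT hz hω hz0
  have hft : Fintype ((F ≃ₐ[K] F) →* ℂˣ) := Fintype.ofFinite _
  -- the product over the places of the field
  have g2' : ∀ s : ℂ, 2 < s.re → HasProd (fun v : HeightOneSpectrum (𝓞 K) =>
        ∏ᶠ u : {u : HeightOneSpectrum (𝓞 F) //
          u.asIdeal.comap (algebraMap (𝓞 K) (𝓞 F)) = v.asIdeal},
            facF n c v (Ideal.absNorm u.1.asIdeal) s) (G s) := by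
    intro s hs
    refine (congrArg (fun g => HasProd g (G s)) (funext fun v => ?_)).mp (g2 s hs)
    rw [above_prod (n := n) (c := c) hcf hlaw v s, finprod_eq_prod_of_fintype]
  have hfinv : ∀ v : HeightOneSpectrum (𝓞 K), Finite {u : HeightOneSpectrum (𝓞 F) //
      u.asIdeal.comap (algebraMap (𝓞 K) (𝓞 F)) = v.asIdeal} := by
    intro v
    have h6 := hlaw.card v
    have hpos : 0 < Nat.card {g : (F ≃ₐ[K] F) →* ℂˣ // fn hd g (gen v) ≠ 0} := by
      have : Nonempty {g : (F ≃ₐ[K] F) →* ℂˣ // fn hd g (gen v) ≠ 0} := ⟨⟨1, by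
        rw [hcf.triv]
        exact one_ne_zero⟩⟩
      exact Nat.card_pos
    have h7 : Nat.card {u : HeightOneSpectrum (𝓞 F) //
        u.asIdeal.comap (algebraMap (𝓞 K) (𝓞 F)) = v.asIdeal} ≠ 0 := by
      intro h0
      rw [h0, zero_mul] at h6
      omega
    exact Nat.finite_of_card_ne_zero h7
  -- the places above two
  have h2u : ∀ u : HeightOneSpectrum (𝓞 F), (2 : 𝓞 F) ∈ u.asIdeal →
      ∀ x : K, u.valuation F (algebraMap K F x) = (low (K := K) u).valuation K x := by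
    intro u h2u x
    obtain ⟨w, rfl⟩ : ∃ w : HeightOneSpectrum (𝓞 (cm K S')), low (K := F) w = u :=
      Pool.Agent.K4H55.CX.exists_above u
    have hnq : ∀ q ∈ S', (q : 𝓞 (cm K S')) ∉ w.asIdeal := by
      intro q hq hqw
      have h1 : (q : 𝓞 K) ∈ (low (K := K) w).asIdeal := low_nat.2 hqw
      have h2 : ((2 : ℕ) : 𝓞 K) ∈ (low (K := K) w).asIdeal := by
        refine low_nat.2 ?_
        have h3 : (((2 : ℕ) : 𝓞 F)) ∈ (low (K := F) w).asIdeal := by exact_mod_cast h2u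
        exact low_nat.1 h3
      exact (hspl q hq).odd (Pool.Agent.K4H55.BD.uniq_over (hspl q hq).pr Nat.prime_two h1 h2)
    obtain ⟨e, f, g, he, -, -, -, h5, -, -, -, h8⟩ :=
      Pool.Agent.U81.MQ.nums (K := K) (low (K := F) w)
    have hine : ∀ τ ∈ Pool.Agent.U81.MQ.ine (K := K) (low (K := F) w), τ = 1 := by
      intro τ hτ
      obtain ⟨s, hs, rfl⟩ := ine_lift w hτ
      refine htriv s fun q hq => ⟨1, ?_⟩
      rw [cy_ine hζ w hq (hnq q hq) hs, one_pow, Units.val_one]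
    have he1 : e = 1 := by
      rw [← h5]
      have : Pool.Agent.U81.MQ.ine (K := K) (low (K := F) w) = ⊥ :=
        (Subgroup.eq_bot_iff_forall _).2 hine
      rw [this, Subgroup.card_bot]
    have := h8 x
    rw [he1, pow_one] at this
    exact this.symm
  obtain ⟨ND, hND, hND'⟩ := discr_odd (K := K) (F := F) h2u
  obtain ⟨m0, hm0, hm1⟩ := discr_rat h hSp F hFM hj
  have hm2 : m0 ^ 2 = ND := by
    have h1 : (m0 : ℝ) ^ 2 = ND := by
      have h2 : Real.sqrt |(discr F : ℝ)| ^ 2 =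
          (m0 * Real.sqrt |(discr K : ℝ)| ^ Module.finrank K F) ^ 2 := by rw [hm1]
      rw [Real.sq_sqrt (abs_nonneg _), mul_pow, ← pow_mul, mul_comm (Module.finrank K F) 2, pow_mul,
        Real.sq_sqrt (abs_nonneg _)] at h2
      have h3 : |(discr F : ℝ)| = ND * |(discr K : ℝ)| ^ Module.finrank K F := by
        have h4 : ((discr F).natAbs : ℝ) = |(discr F : ℝ)| := by
          rw [Nat.cast_natAbs]
          push_cast
          rfl
        have h5 : ((discr K).natAbs : ℝ) = |(discr K : ℝ)| := by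
          rw [Nat.cast_natAbs]
          push_cast
          rfl
        rw [← h4, ← h5, hND']
        push_cast
        rfl
      rw [h3] at h2
      have h6 : |(discr K : ℝ)| ^ Module.finrank K F ≠ 0 :=
        pow_ne_zero _ (abs_ne_zero.2 (by exact_mod_cast discr_ne_zero K))
      exact (mul_right_cancel₀ h6 h2).symm
    exact_mod_cast h1
  obtain ⟨hmo, hmd⟩ := odd_of_sq hND hm2
  refine ⟨⟨hgF, hcomm, ⟨j, hj⟩, gal_Q h hSp F hFM⟩, ⟨m0, hmo, hmd, hm1⟩, G, r, g1,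
    fun s hs => ?_, ?_, fun hroot hodd => ?_⟩
  · exact hasProd_fct hΔ hE (fun u => ⟨_, hlaw.norm (low (K := K) u) u rfl⟩) hfinv (by linarith)
      (g2' s hs)
  · rw [g3, hcard]
  · obtain ⟨G', τ, x, m, k1, k2, k3, k4, k5, k6⟩ := ab_unit h hf hcf hlaw
      (fun g v hv => ⟨(hTT g v hv).1, (hTT g v hv).2, by
        obtain ⟨q, -, hqv⟩ := mem_TT.1 hv
        have h1 := (hS q (hS' q.2)).2 v hqv
        refine ⟨(Ideal.absNorm v.asIdeal : ℤ) - pv a b v, ?_, ?_⟩
        · rw [(hE v h1).2]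
          push_cast
          ring
        · obtain ⟨k, hk⟩ := K4H55.BD.pv_even (a := a) (b := b) (hTT g v hv).1
            (hroot q (hS' q.2) v hqv)
          have h6 := K4H55.BM.norm_odd (hTT g v hv).1
          rw [Nat.odd_iff] at h6
          omega⟩) hz hω hω' hodd
    have hGG : G = G' := entire_eq g1 k1 fun s hs => (g2' s hs).unique (k2 s hs)
    have hm : IsCoprime ((m : integralClosure ℤ ℂ) * τ) 2 := by
      refine IsCoprime.mul_left (cop_int k3) ?_
      refine cop_of (N := ∏ g : (F ≃ₐ[K] F) →* ℂˣ, ∏ v ∈ TT hd g, Ideal.absNorm v.asIdeal) ?_ ?_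
      · refine Finset.prod_induction _ Odd (fun a b ha hb => ha.mul hb) odd_one fun g _ => ?_
        refine Finset.prod_induction _ Odd (fun a b ha hb => ha.mul hb) odd_one fun v hv => ?_
        exact K4H55.BM.norm_odd (hTT g v hv).1
      · rw [k4, finprod_eq_prod_of_fintype]
        push_cast
        rfl
    refine odd_of_unit k5 hm ?_
    have hB : (2 * Real.pi / ‖σ δ‖ : ℂ) ^ 2 / (Nat.card (𝓞 K)ˣ : ℂ) * z ≠ 0 :=
      mul_ne_zero (A_ne h) hz0
    have k7 := k6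
    rw [← hGG, g3] at k7
    have hB' := pow_ne_zero (Nat.card ((F ≃ₐ[K] F) →* ℂˣ)) hB
    apply mul_right_cancel₀ hB'
    have e1 : (((m : integralClosure ℤ ℂ) * τ : integralClosure ℤ ℂ) : ℂ) = (m : ℂ) * (τ : ℂ) := by
      push_cast
      rfl
    rw [e1, ← k7]
    ring

end Pool.Agent.U81.RC
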