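import Mathlib

/-!
Products over groups of characters are rational.
-/

set_option autoImplicit false

namespace Pool.Agent.U81.RC

open IntermediateField

theorem prod_rat' {E : Type} [Field E] [CharZero E] [Algebra ℚ E] {𝒢 X : Type} [CommGroup 𝒢] [Fintype 𝒢] {n : ℕ} [IsCyclotomicExtension {n} ℚ E]
    (hn : n ≠ 0) (h2n : 2 ∣ n) (hc : ∀ t : ℕ, t.Coprime n → (Nat.card 𝒢).Coprime t) (w : 𝒢 → X → ℂ)
    (hw : ∀ g x, w g x = 0 ∨ w g x ^ n = 1)
    (hp : ∀ t : ℕ, t.Coprime n → ∀ g x, w (g ^ t) x = w g x ^ t)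
    (R : 𝒢 → Finset X) (hR : ∀ t : ℕ, t.Coprime n → ∀ g, R (g ^ t) = R g)
    (j : 𝒢 → X → ℤ) (hj : ∀ t : ℕ, t.Coprime n → ∀ g, j (g ^ t) = j g) :
    ∃ r : ℚ, ∏ g, ∑ x ∈ R g, w g x * j g x = (r : ℂ) := by
  classical
  have : NeZero n := ⟨hn⟩
  have hgal : IsGalois ℚ E := IsCyclotomicExtension.isGalois {n} ℚ E
  have hfd : FiniteDimensional ℚ E := IsCyclotomicExtension.finiteDimensional {n} ℚ E
  let φ : E →ₐ[ℚ] ℂ := IsAlgClosed.lift
  have hφ : Function.Injective φ := φ.injective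
  let z : E := IsCyclotomicExtension.zeta n ℚ E
  have hz : IsPrimitiveRoot z n := IsCyclotomicExtension.zeta_spec n ℚ E
  have hζ : IsPrimitiveRoot (φ z) n := hz.map_of_injective hφ
  have h1 : ∀ g x, ∃ e : E, φ e = w g x ∧ (e = 0 ∨ ∃ i, e = z ^ i) := by
    intro g x
    rcases hw g x with h | h
    · exact ⟨0, by rw [h, map_zero], Or.inl rfl⟩
    · obtain ⟨i, -, hi⟩ := hζ.eq_pow_of_pow_eq_one h
      exact ⟨z ^ i, by rw [map_pow, hi], Or.inr ⟨i, rfl⟩⟩
  choose e he1 he2 using h1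
  have h2 : φ (∏ g, ∑ x ∈ R g, e g x * j g x) = ∏ g, ∑ x ∈ R g, w g x * j g x := by
    rw [map_prod]
    refine Finset.prod_congr rfl fun g _ => ?_
    rw [map_sum]
    refine Finset.sum_congr rfl fun x _ => ?_
    rw [map_mul, he1, map_intCast]
  obtain ⟨r, hr⟩ := (IsGalois.mem_range_algebraMap_iff_fixed (F := ℚ)
    (∏ g, ∑ x ∈ R g, e g x * j g x : E)).2 fun s => by
    have h3 : IsPrimitiveRoot (s z) n := hz.map_of_injective s.injective
    obtain ⟨t, -, ht, hst⟩ := (hz.isPrimitiveRoot_iff).1 h3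
    have h0 : t ≠ 0 := by
      rintro rfl
      rw [Nat.coprime_zero_left] at ht
      omega
    have h4 : ∀ g x, s (e g x) = e (g ^ t) x := by
      intro g x
      apply hφ
      rw [he1, hp t ht, ← he1]
      rcases he2 g x with h | ⟨i, h⟩
      · rw [h, map_zero, map_zero, zero_pow h0]
      · rw [h, map_pow, ← hst, ← map_pow]
        congr 1
        rw [← pow_mul, ← pow_mul, mul_comm]
    have hb : Function.Bijective fun g : 𝒢 => g ^ t := by
      have := powCoprime (G := 𝒢) (n := t) (hc t ht)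
      exact (powCoprime (G := 𝒢) (n := t) (hc t ht)).bijective
    rw [map_prod]
    rw [← Function.Bijective.prod_comp hb (fun g => ∑ x ∈ R g, e g x * (j g x : E))]
    refine Finset.prod_congr rfl fun g _ => ?_
    rw [map_sum, hR t ht, hj t ht]
    refine Finset.sum_congr rfl fun x _ => ?_
    rw [map_mul, h4, map_intCast]
  refine ⟨r, ?_⟩
  rw [← h2, ← hr]
  simp

/-- **Products over groups of characters are rational.** -/
theorem prod_rat {𝒢 X : Type} [CommGroup 𝒢] [Fintype 𝒢] {n : ℕ} (hn : n ≠ 0) (h2n : 2 ∣ n)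
    (hc : ∀ t : ℕ, t.Coprime n → (Nat.card 𝒢).Coprime t) (w : 𝒢 → X → ℂ)
    (hw : ∀ g x, w g x = 0 ∨ w g x ^ n = 1)
    (hp : ∀ t : ℕ, t.Coprime n → ∀ g x, w (g ^ t) x = w g x ^ t)
    (R : 𝒢 → Finset X) (hR : ∀ t : ℕ, t.Coprime n → ∀ g, R (g ^ t) = R g)
    (j : 𝒢 → X → ℤ) (hj : ∀ t : ℕ, t.Coprime n → ∀ g, j (g ^ t) = j g) :
    ∃ r : ℚ, ∏ g, ∑ x ∈ R g, w g x * j g x = (r : ℂ) := by
  have : NeZero n := ⟨hn⟩
  have : NeZero (n : ℚ) := ⟨by exact_mod_cast hn⟩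
  have : IsCyclotomicExtension {n} ℚ (CyclotomicField n ℚ) := CyclotomicField.isCyclotomicExtension n ℚ
  exact prod_rat' (E := CyclotomicField n ℚ) hn h2n hc w hw hp R hR j hj

end Pool.Agent.U81.RC
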