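import Mathlib

/-!
Galois extensions of the rationals with square discriminants.
-/

set_option autoImplicit false

namespace Pool.Agent.U81.RC

open NumberField Module

/-- multiplication by an element of even index is an even permutation -/
lemma sign_mulRight {H : Type} [Group H] [Fintype H] [DecidableEq H] {t : H}
    (ht : Even (Subgroup.zpowers t).index) : Equiv.Perm.sign (Equiv.mulRight t) = 1 := by
  classical
  set Z := Subgroup.zpowers t with hZ
  have : Fintype (H ⧸ Z) := Fintype.ofFinite _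
  let e : H ≃ (H ⧸ Z) × Z :=
    { toFun := fun x => (QuotientGroup.mk x, ⟨(Quotient.out (QuotientGroup.mk x : H ⧸ Z))⁻¹ * x,
        QuotientGroup.eq.1 (QuotientGroup.out_eq' _)⟩)
      invFun := fun p => Quotient.out p.1 * p.2
      left_inv := fun x => by simp
      right_inv := fun p => by
        have h1 : (QuotientGroup.mk (Quotient.out p.1 * (p.2 : H)) : H ⧸ Z) = p.1 := by
          rw [QuotientGroup.mk_mul_of_mem _ p.2.2]
          exact QuotientGroup.out_eq' _
        refine Prod.ext h1 (Subtype.ext ?_)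
        show (Quotient.out (QuotientGroup.mk (Quotient.out p.1 * (p.2 : H)) : H ⧸ Z))⁻¹ *
          (Quotient.out p.1 * (p.2 : H)) = p.2
        rw [h1, inv_mul_cancel_left] }
  have htZ : t ∈ Z := Subgroup.mem_zpowers t
  have h1 : Equiv.Perm.sign (Equiv.mulRight t) =
      Equiv.Perm.sign (Equiv.prodCongrRight fun _ : H ⧸ Z => Equiv.mulRight (⟨t, htZ⟩ : Z)) := by
    refine Equiv.Perm.sign_eq_sign_of_equiv _ _ e fun x => ?_
    have h2 : (QuotientGroup.mk (x * t) : H ⧸ Z) = QuotientGroup.mk x :=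
      QuotientGroup.mk_mul_of_mem _ htZ
    refine Prod.ext h2 (Subtype.ext ?_)
    show (Quotient.out (QuotientGroup.mk (x * t) : H ⧸ Z))⁻¹ * (x * t) =
      (Quotient.out (QuotientGroup.mk x : H ⧸ Z))⁻¹ * x * t
    rw [h2, mul_assoc]
  rw [h1, Equiv.Perm.sign_prodCongrRight, Finset.prod_const, Finset.card_univ,
    ← Nat.card_eq_fintype_card]
  obtain ⟨m, hm⟩ := ht
  have h3 : Nat.card (H ⧸ Z) = m + m := hm
  rw [h3, pow_add, Int.units_mul_self]

/-- **Square discriminants.** -/
theorem discr_sq {F : Type} [Field F] [NumberField F] [IsGalois ℚ F]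
    (h : ∀ g : F ≃ₐ[ℚ] F, g ∈ Subgroup.closure {x | Even (Subgroup.zpowers x).index}) :
    ∃ m : ℚ, (discr F : ℚ) = m ^ 2 := by
  classical
  have hcard : Fintype.card (F ≃ₐ[ℚ] F) = Fintype.card (Free.ChooseBasisIndex ℤ (𝓞 F)) := by
    rw [← Nat.card_eq_fintype_card, IsGalois.card_aut_eq_finrank,
      finrank_eq_card_basis (integralBasis F)]
  obtain e := Fintype.equivOfCardEq hcard
  set b := integralBasis F with hb
  let B : Matrix (F ≃ₐ[ℚ] F) (F ≃ₐ[ℚ] F) F := fun g g' => g⁻¹ (b (e g'))
  have h1 : (algebraMap ℚ F) (Algebra.discr ℚ b) = B.det ^ 2 := by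
    have h2 : (Algebra.traceMatrix ℚ b).submatrix e e = (Algebra.traceMatrix ℚ b).submatrix e e := rfl
    have h3 : B.transpose * B = ((Algebra.traceMatrix ℚ b).submatrix e e).map (algebraMap ℚ F) := by
      ext g g'
      rw [Matrix.mul_apply, Matrix.map_apply, Matrix.submatrix_apply, Algebra.traceMatrix_apply,
        Algebra.traceForm_apply, trace_eq_sum_automorphisms,
        ← Equiv.sum_comp (Equiv.inv (F ≃ₐ[ℚ] F))]
      refine Finset.sum_congr rfl fun s _ => ?_
      rw [Equiv.inv_apply, map_mul]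
      rfl
    rw [Algebra.discr_def, ← Matrix.det_submatrix_equiv_self e, RingHom.map_det]
    have h4 : (algebraMap ℚ F).mapMatrix ((Algebra.traceMatrix ℚ b).submatrix e e) =
        B.transpose * B := by
      rw [h3]
      rfl
    rw [h4, Matrix.det_mul, Matrix.det_transpose, sq]
  have h5 : ∀ s : F ≃ₐ[ℚ] F, Even (Subgroup.zpowers s).index → s B.det = B.det := by
    intro s hs
    have h6 : s B.det = (B.submatrix (Equiv.mulRight s⁻¹) id).det := by
      have h7 : (s : F →+* F) B.det = ((s : F →+* F).mapMatrix B).det := RingHom.map_det _ _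
      have h8 : (s : F →+* F).mapMatrix B = B.submatrix (Equiv.mulRight s⁻¹) id := by
        ext g g'
        show s (g⁻¹ (b (e g'))) = (g * s⁻¹)⁻¹ (b (e g'))
        rw [mul_inv_rev, inv_inv]
        rfl
      rw [← h8, ← h7]
      rfl
    rw [h6, Matrix.det_permute, sign_mulRight]
    · simp
    · rwa [Subgroup.zpowers_inv]
  have h6 : ∀ s : F ≃ₐ[ℚ] F, s B.det = B.det := by
    intro s
    have h7 : Subgroup.closure {x : F ≃ₐ[ℚ] F | Even (Subgroup.zpowers x).index} ≤
        MulAction.stabilizer (F ≃ₐ[ℚ] F) B.det := by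
      rw [Subgroup.closure_le]
      intro x hx
      exact h5 x hx
    exact h7 (h s)
  obtain ⟨m, hm⟩ := (IsGalois.mem_range_algebraMap_iff_fixed (F := ℚ) B.det).2 h6
  refine ⟨m, ?_⟩
  apply (algebraMap ℚ F).injective
  rw [coe_discr, h1, ← hm, map_pow]

end Pool.Agent.U81.RC
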