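import Pool.Agent.U81.RC.Main
import Pool.Agent.U81.AT.Top

/-!
The admissible primes.
-/

set_option autoImplicit false

namespace Pool.Agent.U81.RC

open NumberField IsDedekindDomain Filter Topology
open Pool.Agent.K4H55.BD (low mem_low Spl QE Cub pv crv)
open Pool.Agent.K4H55.BI (IQ BF)
open Pool.Agent.U81.AT

/-- quotients of units at two -/
lemma odd_div {r m : ℚ} (h1 : Odd r.num) (h2 : Odd r.den) (h3 : Odd m.num) (h4 : Odd m.den) :
    Odd (r / m).num ∧ Odd (r / m).den := by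
  have hm0 : m ≠ 0 := by
    rintro rfl
    simp at h3
  have hr0 : r ≠ 0 := by
    rintro rfl
    simp at h1
  have hv : ∀ x : ℚ, Odd x.num → Odd x.den → padicValRat 2 x = 0 := by
    intro x hx hd
    unfold padicValRat
    have e1 : padicValInt 2 x.num = 0 := by
      refine padicValInt.eq_zero_of_not_dvd ?_
      rw [Int.odd_iff] at hx
      omega
    have e2 : padicValNat 2 x.den = 0 := by
      refine padicValNat.eq_zero_of_not_dvd ?_
      rw [Nat.odd_iff] at hd
      omega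
    rw [e1, e2]
    simp
  have hfact : Fact (Nat.Prime 2) := ⟨Nat.prime_two⟩
  have h5 : padicValRat 2 (r / m) = 0 := by
    rw [padicValRat.div hr0 hm0, hv r h1 h2, hv m h3 h4, sub_zero]
  have h6 : r / m ≠ 0 := div_ne_zero hr0 hm0
  set x := r / m with hx
  unfold padicValRat at h5
  have hcop := x.reduced
  have h7 : padicValInt 2 x.num = padicValNat 2 x.den := by omega
  have h8 : ¬ (2 ∣ x.num.natAbs ∧ 2 ∣ x.den) := by
    rintro ⟨h9, h10⟩
    have h11 := Nat.dvd_gcd h9 h10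
    rw [Nat.Coprime] at hcop
    rw [hcop] at h11
    omega
  have h9 : x.num.natAbs ≠ 0 := by
    rw [Ne, Int.natAbs_eq_zero, Rat.num_eq_zero]
    exact h6
  have h10 : padicValNat 2 x.num.natAbs = padicValNat 2 x.den := h7
  by_cases h11 : 2 ∣ x.den
  · exfalso
    have h12 : 1 ≤ padicValNat 2 x.den := one_le_padicValNat_of_dvd x.den_ne_zero h11
    rw [← h10] at h12
    exact h8 ⟨dvd_of_one_le_padicValNat h12, h11⟩
  · have h12 : padicValNat 2 x.den = 0 := padicValNat.eq_zero_of_not_dvd h11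
    rw [h12] at h10
    have h13 : ¬ 2 ∣ x.num.natAbs := by
      intro h14
      have := one_le_padicValNat_of_dvd h9 h14
      omega
    refine ⟨?_, ?_⟩
    · rw [Int.odd_iff]
      omega
    · rw [Nat.odd_iff]
      omega

variable {K : Type} [Field K] [NumberField K] {σ : K →+* ℂ} {δ : K} {a b n : 𝓞 K}

/-- **The admissible primes.** -/
theorem dens_root (h : IQ K σ δ) (hΔ : 4 * a ^ 3 + 27 * b ^ 2 ≠ 0) (hn : n ≠ 0)
    (hr : ∀ x : K, x ^ 3 + a * x + b ≠ 0) (k : ℕ) :
    (∃ d : ℝ, 0 < d ∧ ∀ᶠ N : ℕ in atTop,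
      d * (N / Real.log N) ≤ Nat.card {q : ℕ // q ≤ N ∧ q ∈ QE h a b n ∧ Bd a b k q}) ∧
    {q : ℕ | q ∈ QE h a b n ∧ Bd a b k q}.Infinite := by
  classical
  obtain ⟨d, hd, h1⟩ := densR h hΔ hn hr k (Ideal.absNorm (Ideal.span {2 * (4 * a ^ 3 + 27 * b ^ 2)})).divisors
      (fun r hr => by
        rintro rfl
        simp at hr)
  set R := (Ideal.absNorm (Ideal.span {2 * (4 * a ^ 3 + 27 * b ^ 2)})).divisors with hR
  constructor
  · refine ⟨d, hd, ?_⟩
    filter_upwards [h1 ∅ Set.finite_empty] with N hN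
    refine hN.trans ?_
    have h2 : Pool.Agent.K4H55.AB.Cnt.cA (QR h a b n k R \ ∅) N ≤
        Nat.card {q : ℕ // q ≤ N ∧ q ∈ QE h a b n ∧ Bd a b k q} := by
      rw [Set.sdiff_empty]
      unfold Pool.Agent.K4H55.AB.Cnt.cA
      have h3 : {q : ℕ | q ≤ N ∧ q ∈ QE h a b n ∧ Bd a b k q} =
          (((Finset.range (N + 1)).filter (fun q => q ∈ QE h a b n ∧ Bd a b k q) :
            Finset ℕ) : Set ℕ) := by
        ext q
        simp only [Set.mem_ofPred_eq, Finset.coe_filter, Finset.mem_range, Nat.lt_succ_iff]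
      have h4 : Nat.card {q : ℕ // q ≤ N ∧ q ∈ QE h a b n ∧ Bd a b k q} =
          Set.ncard {q : ℕ | q ≤ N ∧ q ∈ QE h a b n ∧ Bd a b k q} := by
        rw [← Nat.card_coe_set_eq]; rfl
      rw [h4, h3, Set.ncard_coe_finset]
      refine Finset.card_le_card fun q hq => ?_
      rw [Finset.mem_filter] at hq ⊢
      exact ⟨hq.1, hq.2.1, bd_of hΔ hq.2.2⟩
    exact_mod_cast h2
  · intro hfin
    have h2 : (QR h a b n k R).Finite := hfin.subset fun q hq => ⟨hq.1, bd_of hΔ hq.2⟩
    obtain ⟨N, hN, hN2⟩ := ((h1 _ h2).and (eventually_ge_atTop 2)).exists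
    rw [Set.sdiff_self] at hN
    have h3 : Pool.Agent.K4H55.AB.Cnt.cA (∅ : Set ℕ) N = 0 := by
      unfold Pool.Agent.K4H55.AB.Cnt.cA
      simp
    have h4 : (2 : ℝ) ≤ N := by exact_mod_cast hN2
    have h5 : 0 < Real.log N := Real.log_pos (by linarith)
    have h6 : 0 < d * (N / Real.log N) := mul_pos hd (div_pos (by linarith) h5)
    have h7 : d * (N / Real.log N) ≤ 0 := by
      refine hN.trans (le_of_eq ?_)
      exact_mod_cast h3
    linarith

end Pool.Agent.U81.RC
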