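import Pool.Agent.U81.RC.Chr
import Pool.Agent.K4H55.CX.AbL

/-!
The product of the central values is a rational multiple of a power of the first one.
-/

set_option autoImplicit false

namespace Pool.Agent.U81.RC

open NumberField IsDedekindDomain Filter Topology
open scoped ComplexConjugate
open Pool.Agent.K4H55.BD (low mem_low Spl tv tv_ne eq_or_tv mem_tv_nat pl mem_pl uniq_over)
open Pool.Agent.K4H55.BI
open Pool.Agent.K4H55.BK
open Pool.Agent.K4H55.CX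
open Pool.Agent.U81.AT (Dat fn TT ps ch_fn mem_TT)

variable {K : Type} [Field K] [NumberField K] [hP : IsPrincipalIdealRing (𝓞 K)] {σ : K →+* ℂ} {δ : K}
  {n : 𝓞 K} {c : Ideal (𝓞 K) → ℂ}

lemma nm_md (h : IQ K σ δ) [DecidableEq (𝓞 K)] (S : Finset (HeightOneSpectrum (𝓞 K))) :
    (ordK h).nm (md (S.image gen)) = ∏ v ∈ S, Ideal.absNorm v.asIdeal := by
  classical
  unfold md
  rw [Finset.prod_image fun _ _ _ _ h => gen_inj h]
  induction S using Finset.induction_on with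
  | empty => rw [Finset.prod_empty, Finset.prod_empty, nm_one]
  | insert v S hv ih =>
    rw [Finset.prod_insert hv, Finset.prod_insert hv, Ord.nm_mul, ih]
    congr 2
    have e1 : (ordK h).nm (gen v) = Ideal.absNorm (Ideal.span {gen v}) :=
      (Ideal.absNorm_span_singleton _).symm
    rw [e1, gen_span]

variable {F M : Type} [Field F] [NumberField F] [Field M]
  [NumberField M] [Algebra K F] [Algebra F M] [Algebra K M] [IsScalarTower K F M]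
  [IsGalois K F] [IsGalois K M] {S : Finset ℕ} {ζ : ℕ → 𝓞 M}

/-- **Rationality.** -/
theorem val_rat (h : Dat K S ζ) (hI : IQ K σ δ) (hf : BF σ δ n c) (hS : ∀ q ∈ S, Spl hI q) {N : ℕ}
    (hN : ∀ τ : F ≃ₐ[K] F, τ ^ 2 ^ N = 1)
    (hT : ∀ χ : (F ≃ₐ[K] F) →* ℂˣ, ∀ v ∈ TT h χ, (2 : 𝓞 K) ∉ v.asIdeal ∧ n ∉ v.asIdeal)
    {z : ℂ} (hz : Tendsto (fun t => Fser σ δ c 0 t) (𝓝[>] 0) (𝓝 z)) {ω : ℂ}
    (hω : ∀ l ∈ AddSubgroup.closure (Vals σ δ n c), ∃ j : ℤ, l = j * ω) (hz0 : z ≠ 0) :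
    ∃ (G : ℂ → ℂ) (r : ℚ), Differentiable ℂ G ∧ (∀ s : ℂ, 2 < s.re →
      HasProd (fun v => ∏ᶠ χ : (F ≃ₐ[K] F) →* ℂˣ, efx n c (fn h χ) s v) (G s)) ∧
      G 1 = r * ((2 * Real.pi / ‖σ δ‖) ^ 2 / (Nat.card (𝓞 K)ˣ : ℂ) * z) ^
        Nat.card ((F ≃ₐ[K] F) →* ℂˣ) := by
  classical
  have hft : Fintype ((F ≃ₐ[K] F) →* ℂˣ) := Fintype.ofFinite _
  have hch := fun χ => ch_fn h hI hS hN χ
  have hfam : ∀ χ : (F ≃ₐ[K] F) →* ℂˣ, Fam ((TT h χ).image gen) := fun χ =>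
    fam_of (A := {v | (2 : 𝓞 K) ∉ v.asIdeal}) (fun v hv => hv) (fun v hv => (hT χ v hv).1)
  choose G g1 g2 g3 using fun χ : (F ≃ₐ[K] F) →* ℂˣ =>
    value_x hI hf (hfam χ) (hch χ).hc (hch χ).unit fun v hv => (hT χ v hv).2
  obtain ⟨C, w, κ, κW, hNf⟩ := hf.newf hI
  have hMG := hNf.mg
  have hlim : ∀ x m : 𝓞 K, m ≠ 0 → IsCoprime m n → ∃ i : ℤ,
      fv (ordK hI) (fun x => c (Ideal.span {x})) ((ordK hI).ι x / (ordK hI).ι m) = i * ω := by
    intro x m hm hmn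
    refine hω _ (AddSubgroup.subset_closure ⟨x, m, hm, hmn, ?_⟩)
    rw [Fser_eq hI]
    exact hMG.tendsto hm hmn
  obtain ⟨j0, hj0⟩ : ∃ i : ℤ, z = i * ω := by
    obtain ⟨z', hz', hz1⟩ := exists_z0 hI hf
    have hzz : z' = z := tendsto_nhds_unique hz1 hz
    rw [← hzz]
    exact hω _ (AddSubgroup.subset_closure hz')
  have hω0 : ω ≠ 0 := fun h0 => hz0 (by rw [hj0, h0, mul_zero])
  have hj00 : (j0 : ℂ) ≠ 0 := fun h0 => hz0 (by rw [hj0, h0, zero_mul])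
  have h1 : ∀ m x : 𝓞 K, ∃ i : ℤ, m ≠ 0 ∧ IsCoprime m n →
      fv (ordK hI) (fun x => c (Ideal.span {x})) ((ordK hI).ι x / (ordK hI).ι m) = i * ω := by
    intro m x
    by_cases hm : m ≠ 0 ∧ IsCoprime m n
    · obtain ⟨i, hi⟩ := hlim x m hm.1 hm.2
      exact ⟨i, fun _ => hi⟩
    · exact ⟨0, fun h => absurd h hm⟩
  choose J hJ using h1
  have hmd : ∀ χ : (F ≃ₐ[K] F) →* ℂˣ, md ((TT h χ).image gen) ≠ 0 ∧
      IsCoprime (md ((TT h χ).image gen)) n := fun χ =>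
    ⟨(hfam χ).md_ne, md_coprime (ordK hI) (hfam χ) fun p hp hd => by
      obtain ⟨v, hv, rfl⟩ := Finset.mem_image.1 hp
      exact (hT χ v hv).2 (gen_dvd.1 hd)⟩
  -- the sums
  set Sm : ((F ≃ₐ[K] F) →* ℂˣ) → ℂ := fun χ => ∑ x ∈ rs (ordK hI) (md ((TT h χ).image gen)),
    conj (fn h χ x) * J (md ((TT h χ).image gen)) x with hSm
  have h2 : ∀ χ : (F ≃ₐ[K] F) →* ℂˣ, ∑ x ∈ rs (ordK hI) (md ((TT h χ).image gen)),
      conj (fn h χ x) * fv (ordK hI) (fun x => c (Ideal.span {x})) ((ordK hI).ι x /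
        (ordK hI).ι (md ((TT h χ).image gen))) = Sm χ * ω := by
    intro χ
    rw [hSm, Finset.sum_mul]
    refine Finset.sum_congr rfl fun x _ => ?_
    rw [hJ _ x (hmd χ), mul_assoc]
  have hcop : ∀ t : ℕ, t.Coprime (2 ^ (N + 1)) → t.Coprime 2 ∧ t ≠ 0 := by
    intro t ht
    have h3 : t.Coprime 2 := Nat.Coprime.coprime_dvd_right (dvd_pow_self 2 (by omega)) ht
    refine ⟨h3, ?_⟩
    rintro rfl
    rw [Nat.coprime_zero_left] at h3
    omega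
  have hpg : IsPGroup 2 ((F ≃ₐ[K] F) →* ℂˣ) := fun χ => ⟨N, MonoidHom.ext fun τ => by
    show χ τ ^ 2 ^ N = 1
    rw [← map_pow, hN, map_one]⟩
  have hfact : Fact (Nat.Prime 2) := ⟨Nat.prime_two⟩
  obtain ⟨k, hk⟩ := IsPGroup.iff_card.1 hpg
  obtain ⟨r1, hr1⟩ := prod_rat (𝒢 := (F ≃ₐ[K] F) →* ℂˣ) (X := 𝓞 K) (n := 2 ^ (N + 1)) (by positivity)
    (dvd_pow_self 2 (by omega))
    (fun t ht => by
      rw [hk]
      exact (Nat.Coprime.pow_right k (hcop t ht).1).symm)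
    (fun χ x => conj (fn h χ x))
    (fun χ x => by
      by_cases h0 : fn h χ x = 0
      · left
        rw [h0, map_zero]
      · right
        obtain ⟨k', hk'⟩ := (hch χ).pow
        have h3 : fn h χ x ^ 2 ^ N = 1 := by
          unfold fn at h0 ⊢
          rw [← Finset.prod_pow]
          refine Finset.prod_eq_one fun q _ => AT.vl_pow (AT.ps_pow h χ hN q) ?_
          exact (Finset.prod_ne_zero_iff.1 h0) q (Finset.mem_univ _)
        rw [← map_pow, pow_succ, pow_mul, h3, one_pow, map_one])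
    (fun t ht χ x => by
      rw [fn_odd h hN (hcop t ht).1 (hcop t ht).2, map_pow])
    (fun χ => rs (ordK hI) (md ((TT h χ).image gen)))
    (fun t ht χ => by
      rw [TT_odd h hN (hcop t ht).1])
    (fun χ x => J (md ((TT h χ).image gen)) x)
    (fun t ht χ => by
      rw [TT_odd h hN (hcop t ht).1])
  -- the Gauss sums
  set P : ℂ := ∏ χ : (F ≃ₐ[K] F) →* ℂˣ, gx (ordK hI) ((TT h χ).image gen) (br (fn h χ)) 1 with hPd
  have hP0 : P ≠ 0 := Finset.prod_ne_zero_iff.2 fun χ _ => gx_ne (ordK hI) (hfam χ) (hch χ).hc.br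
  have hbr : ∀ χ : (F ≃ₐ[K] F) →* ℂˣ, br (fn h χ⁻¹) = fn h χ := by
    intro χ
    funext x
    show conj (fn h χ⁻¹ x) = fn h χ x
    rw [fn_inv h hN, Complex.conj_conj]
  choose mm hmm using fun χ : (F ≃ₐ[K] F) →* ℂˣ => TT_sq h hI hS χ
  have hPP : P * P = ((∏ χ, mm χ : ℕ) : ℂ) ^ 2 := by
    have h3 : P = ∏ χ : (F ≃ₐ[K] F) →* ℂˣ, gx (ordK hI) ((TT h χ).image gen) (fn h χ) 1 := by
      rw [hPd, ← Equiv.prod_comp (Equiv.inv ((F ≃ₐ[K] F) →* ℂˣ))]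
      refine Finset.prod_congr rfl fun χ _ => ?_
      rw [Equiv.inv_apply, hbr, TT_inv]
    nth_rewrite 1 [h3]
    rw [hPd, ← Finset.prod_mul_distrib]
    push_cast
    rw [← Finset.prod_pow]
    refine Finset.prod_congr rfl fun χ _ => ?_
    rw [(gx_conj (ordK hI) (hfam χ) (hch χ).hc ((hch χ).unit _ isUnit_one.neg)).1, nm_md, hmm]
    push_cast
    rfl
  obtain ⟨p, hp⟩ : ∃ p : ℚ, P = (p : ℂ) := by
    rw [← sq] at hPP
    rcases sq_eq_sq_iff_eq_or_eq_neg.1 hPP with h3 | h3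
    · exact ⟨((∏ χ, mm χ : ℕ) : ℚ), by rw [h3]; push_cast; rfl⟩
    · exact ⟨-((∏ χ, mm χ : ℕ) : ℚ), by rw [h3]; push_cast; rfl⟩
  have hp0 : (p : ℂ) ≠ 0 := by rwa [← hp]
  refine ⟨fun s => ∏ χ, G χ s, r1 / (p * j0 ^ Nat.card ((F ≃ₐ[K] F) →* ℂˣ)),
    Differentiable.fun_finsetProd fun χ _ => g1 χ, fun s hs => ?_, ?_⟩
  · simp only [finprod_eq_prod_of_fintype]
    exact hasProd_prod fun χ _ => g2 χ s hs
  · have h3 : ∀ χ : (F ≃ₐ[K] F) →* ℂˣ, G χ 1 = (kap (ordK hI) / nu (𝓞 K) * ω) *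
        (Sm χ / gx (ordK hI) ((TT h χ).image gen) (br (fn h χ)) 1) := by
      intro χ
      rw [g3 χ, h2 χ]
      ring
    simp only [h3]
    rw [Finset.prod_mul_distrib, Finset.prod_div_distrib, ← hPd, Finset.prod_const,
      Finset.card_univ, ← Nat.card_eq_fintype_card, ← A_eq hI, hj0, hp]
    have h4 : ∏ χ, Sm χ = (r1 : ℂ) := hr1
    rw [h4]
    push_cast
    have hkn : (kap (ordK hI) : ℂ) / nu (𝓞 K) ≠ 0 := by
      rw [A_eq hI]
      exact A_ne hI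
    rw [mul_pow, mul_pow, mul_pow]
    have hd : (j0 : ℂ) ^ Nat.card ((F ≃ₐ[K] F) →* ℂˣ) ≠ 0 := pow_ne_zero _ hj00
    generalize (j0 : ℂ) ^ Nat.card ((F ≃ₐ[K] F) →* ℂˣ) = d at hd
    generalize ω ^ Nat.card ((F ≃ₐ[K] F) →* ℂˣ) = b
    generalize ((kap (ordK hI) : ℂ) / nu (𝓞 K)) ^ Nat.card ((F ≃ₐ[K] F) →* ℂˣ) = a
    field_simp

end Pool.Agent.U81.RC
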